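import Mathlib

set_option linter.unusedVariables false

namespace Pool.Agent.Results.MP_375cbb_nt.Alpha

open Finset PowerSeries

/-- `B` has the exponential generating function `(z^b/b!)/(e^z - ∑_{k<b} z^k/k!)` -/
def IsHB (b : ℕ) (B : ℕ → ℚ) : Prop :=
  (PowerSeries.mk fun n => B n / n.factorial) *
      (PowerSeries.exp ℚ - ∑ k ∈ range b, C (1 / (k.factorial : ℚ)) * X ^ k) =
    C (1 / (b.factorial : ℚ)) * X ^ b

lemma tail (b : ℕ) : (PowerSeries.exp ℚ - ∑ k ∈ range b, C (1 / (k.factorial : ℚ)) * X ^ k) =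
    (PowerSeries.mk fun k => 1 / ((k + b).factorial : ℚ)) * X ^ b := by
  ext n
  rw [coeff_mul_X_pow', map_sub, map_sum, coeff_exp]
  simp only [coeff_C_mul, coeff_X_pow, mul_ite, mul_one, mul_zero, sum_ite_eq, mem_range,
    coeff_mk]
  by_cases h : b ≤ n
  · rw [if_neg (by omega), if_pos h, Nat.sub_add_cancel h]; simp
  · rw [if_pos (by omega), if_neg h]; simp

lemma iff_mul (b : ℕ) (B : ℕ → ℚ) : IsHB b B ↔ (PowerSeries.mk fun n => B n / n.factorial) *
    (PowerSeries.mk fun k => 1 / ((k + b).factorial : ℚ)) = C (1 / (b.factorial : ℚ)) := by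
  rw [IsHB, tail, ← mul_assoc, mul_left_inj' (pow_ne_zero _ X_ne_zero)]

lemma recur {b : ℕ} {B : ℕ → ℚ} (h : IsHB b B) (n : ℕ) :
    ∑ i ∈ range (n + 1), ((n + b).choose i : ℚ) * B i = if n = 0 then 1 else 0 := by
  have h1 := congrArg (coeff n) ((iff_mul b B).1 h)
  rw [coeff_mul, Nat.sum_antidiagonal_eq_sum_range_succ_mk, coeff_C] at h1
  simp only [coeff_mk] at h1
  have h2 : ∑ i ∈ range (n + 1), ((n + b).choose i : ℚ) * B i = ((n + b).factorial : ℚ) *
      ∑ i ∈ range (n + 1), B i / i.factorial * (1 / ((n - i + b).factorial : ℚ)) := by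
    rw [mul_sum]
    refine sum_congr rfl fun i hi => ?_
    have hi : i ≤ n := Nat.lt_succ_iff.1 (mem_range.1 hi)
    rw [Nat.cast_choose ℚ (by omega : i ≤ n + b), show n + b - i = n - i + b by omega]
    field_simp
  rw [h2, h1]
  split_ifs with h0
  · subst h0; simp [Nat.factorial_ne_zero]
  · simp

/-- rationals with odd denominator -/
def I (q : ℚ) : Prop := ∃ m : ℕ, Odd m ∧ ∃ z : ℤ, q * m = z

lemma I_iff (q : ℚ) : I q ↔ Odd q.den := by
  constructor
  · rintro ⟨m, hm, z, hz⟩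
    have h0 : (m : ℚ) ≠ 0 := by exact_mod_cast hm.pos.ne'
    have h1 : q = (z : ℚ) / ((m : ℤ) : ℚ) := by push_cast; rw [eq_div_iff h0, hz]
    have h2 : (q.den : ℤ) ∣ (m : ℤ) := by
      rw [h1, ← Rat.divInt_eq_div]; exact Rat.den_dvd _ _
    exact hm.of_dvd_nat (Int.natCast_dvd_natCast.1 h2)
  · exact fun h => ⟨q.den, h, q.num, Rat.mul_den_eq_num q⟩

lemma I_add {p q : ℚ} (hp : I p) (hq : I q) : I (p + q) := by
  obtain ⟨m, hm, z, hz⟩ := hp
  obtain ⟨m', hm', z', hz'⟩ := hq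
  refine ⟨m * m', hm.mul hm', z * m' + z' * m, ?_⟩
  push_cast; rw [← hz, ← hz']; ring

lemma I_mul (k : ℤ) {q : ℚ} (hq : I q) : I (k * q) := by
  obtain ⟨m, hm, z, hz⟩ := hq
  refine ⟨m, hm, k * z, ?_⟩
  push_cast; rw [← hz]; ring

lemma I_sum {s : Finset ℕ} {f : ℕ → ℚ} (h : ∀ i ∈ s, I (f i)) : I (∑ i ∈ s, f i) :=
  sum_induction f I (fun _ _ => I_add) ⟨1, odd_one, 0, by simp⟩ h

lemma odd_choose (v m n : ℕ) (hn : n < 2 ^ v) : Odd ((n + 2 ^ v * m).choose n) := by
  have h := Choose.choose_modEq_choose_mul_prod_range_choose (n := n + 2 ^ v * m) (k := n)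
    (p := 2) v
  rw [Nat.div_eq_of_lt hn, Nat.choose_zero_right, prod_eq_one] at h
  · rw [Nat.odd_iff]
    have := h.eq
    omega
  · intro i hi
    obtain ⟨d, rfl⟩ := Nat.exists_eq_add_of_lt (mem_range.1 hi)
    rw [show 2 ^ (i + d + 1) * m = 2 ^ i * (2 * (2 ^ d * m)) by ring,
      Nat.add_mul_div_left _ _ (by positivity), Nat.add_mul_mod_self_left]
    simp

lemma even_choose (v m j : ℕ) (hm : Odd m) (h0 : 0 < j) (hj : j ≤ 2 ^ v) :
    Even ((2 ^ v + 2 ^ v * m).choose j) := by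
  by_contra hc
  rw [Nat.not_even_iff_odd] at hc
  obtain ⟨k, rfl⟩ := hm
  obtain ⟨j, rfl⟩ := Nat.exists_eq_add_of_lt h0
  obtain ⟨M, hM⟩ : ∃ M, 2 ^ v + 2 ^ v * (2 * k + 1) = M + 1 :=
    ⟨_, (Nat.succ_pred_eq_of_pos (by positivity)).symm⟩
  have h1 := Nat.add_one_mul_choose_eq M j
  rw [hM, zero_add] at hc
  have h2 : 2 ^ (v + 1) ∣ (M + 1).choose (j + 1) * (j + 1) := by
    rw [← h1, ← hM]
    exact Dvd.dvd.mul_right ⟨k + 1, by ring⟩ _
  have h3 := (Nat.Coprime.pow_left _ (Nat.coprime_two_left.2 hc)).dvd_of_dvd_mul_left h2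
  have h4 := Nat.le_of_dvd (by omega) h3
  rw [pow_succ] at h4
  omega

lemma main (v m : ℕ) (hm : Odd m) (B : ℕ → ℚ) (h : IsHB (2 ^ v * m) B) :
    IsLeast {n | Even (B n).den} (2 ^ v) := by
  have h0 : B 0 = 1 := by simpa using recur h 0
  have h1 : ∀ n, n < 2 ^ v → I (B n) := by
    intro n
    induction n using Nat.strong_induction_on with
    | _ n ih =>
      intro hn
      rcases Nat.eq_zero_or_pos n with rfl | hp
      · exact ⟨1, odd_one, 1, by simp [h0]⟩
      have h2 := recur h n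
      rw [sum_range_succ, if_neg hp.ne'] at h2
      have h3 : I (∑ i ∈ range n, ((n + 2 ^ v * m).choose i : ℚ) * B i) :=
        I_sum fun i hi => by
          simpa using I_mul ((n + 2 ^ v * m).choose i : ℕ)
            (ih i (mem_range.1 hi) ((mem_range.1 hi).trans hn))
      obtain ⟨k, hk, z, hz⟩ := h3
      refine ⟨(n + 2 ^ v * m).choose n * k, (odd_choose v m n hn).mul hk, -z, ?_⟩
      push_cast
      rw [← hz]
      linear_combination (k : ℚ) * h2
  constructor
  · by_contra hc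
    rw [Set.mem_ofPred_eq, Nat.not_even_iff_odd, ← I_iff] at hc
    have h2 := recur h (2 ^ v)
    rw [sum_range_succ', if_neg (by positivity), h0] at h2
    have h3 : I (∑ i ∈ range (2 ^ v),
        (((2 ^ v + 2 ^ v * m).choose (i + 1) / 2 : ℕ) : ℚ) * B (i + 1)) :=
      I_sum fun i hi => by
        have hi : i + 1 ≤ 2 ^ v := mem_range.1 hi
        have : I (B (i + 1)) := by
          rcases hi.eq_or_lt with e | e
          · rwa [e]
          · exact h1 _ e
        exact_mod_cast I_mul ((2 ^ v + 2 ^ v * m).choose (i + 1) / 2 : ℕ) this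
    obtain ⟨k, hk, z, hz⟩ := h3
    have h4 : ∑ i ∈ range (2 ^ v), ((2 ^ v + 2 ^ v * m).choose (i + 1) : ℚ) * B (i + 1) =
        2 * ∑ i ∈ range (2 ^ v),
          (((2 ^ v + 2 ^ v * m).choose (i + 1) / 2 : ℕ) : ℚ) * B (i + 1) := by
      rw [mul_sum]
      refine sum_congr rfl fun i hi => ?_
      obtain ⟨c, hc⟩ := even_choose v m (i + 1) hm (by omega) (mem_range.1 hi)
      rw [hc, show (c + c) / 2 = c by omega]
      push_cast; ring
    have h5 : (2 * z + k : ℤ) = 0 := by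
      have : (2 * z + k : ℚ) = 0 := by
        rw [← hz]
        rw [h4, Nat.choose_zero_right] at h2
        push_cast at h2 ⊢
        linear_combination (k : ℚ) * h2
      exact_mod_cast this
    rw [Nat.odd_iff] at hk
    omega
  · intro n hn
    by_contra hc
    exact Nat.not_even_iff_odd.2 ((I_iff _).1 (h1 n (by omega))) hn

theorem result (b : ℕ) (hb : 1 ≤ b) :
    (∃ B : ℕ → ℚ, IsHB b B) ∧ ∀ B : ℕ → ℚ, IsHB b B →
      IsLeast {n | Even (B n).den}
        (if b % 4 = 0 then 2 ^ padicValNat 2 b else padicValNat 2 b + 1) := by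
  constructor
  · refine ⟨fun n => n.factorial * coeff n (C (1 / (b.factorial : ℚ)) *
      (PowerSeries.mk fun k => 1 / ((k + b).factorial : ℚ))⁻¹), (iff_mul _ _).2 ?_⟩
    have e : (PowerSeries.mk fun n => (n.factorial : ℚ) * coeff n (C (1 / (b.factorial : ℚ)) *
        (PowerSeries.mk fun k => 1 / ((k + b).factorial : ℚ))⁻¹) / n.factorial) =
        C (1 / (b.factorial : ℚ)) * (PowerSeries.mk fun k => 1 / ((k + b).factorial : ℚ))⁻¹ := by
      ext n
      rw [coeff_mk]
      field_simp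
    rw [e, mul_assoc, PowerSeries.inv_mul_cancel, mul_one]
    simp [Nat.factorial_ne_zero]
  · obtain ⟨v, m, hm, rfl⟩ := Nat.exists_eq_two_pow_mul_odd (by omega : b ≠ 0)
    have hv : padicValNat 2 (2 ^ v * m) = v := by
      rw [padicValNat.mul (by positivity) hm.pos.ne', padicValNat.prime_pow,
        padicValNat.eq_zero_of_not_dvd (by rw [Nat.odd_iff] at hm; omega), add_zero]
    intro B hB
    have h := main v m hm B hB
    rw [hv]
    rw [Nat.odd_iff] at hm
    rcases v with _ | _ | v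
    · rw [if_neg (by omega)]; simpa using h
    · rw [if_neg (by omega)]; simpa using h
    · rw [if_pos (by rw [show 2 ^ (v + 1 + 1) * m = 4 * (2 ^ v * m) by ring]; omega)]
      exact h

end Pool.Agent.Results.MP_375cbb_nt.Alpha
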